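import Pool.Agent.Run7.h630.MQ.Iface

/-!
# Project MQ (helper630), MP_7f377f_mp: the Frobenius norm and unitary matrices
-/

open Matrix
open scoped Matrix.Norms.Frobenius ComplexConjugate

namespace Run7.h593.MQ

open Run7.h4.YM Run7.h630.ML Run7.h630.MQ

noncomputable section

variable {N : ℕ}

theorem nrm_sq (A : Mt N) : ‖A‖ ^ 2 = ∑ i, ∑ j, ‖A i j‖ ^ 2 := by
  rw [Matrix.frobenius_norm_def, ← Real.sqrt_eq_rpow, Real.sq_sqrt]
  · simp
  · exact Finset.sum_nonneg fun _ _ => Finset.sum_nonneg fun _ _ => by positivity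

theorem nrm_tr (A : Mt N) : (‖A‖ ^ 2 : ℝ) = (trace (Aᴴ * A)).re := by
  rw [nrm_sq, Matrix.trace]
  simp only [Matrix.diag, Matrix.mul_apply, conjTranspose_apply, Complex.re_sum]
  rw [Finset.sum_comm]
  refine Finset.sum_congr rfl fun i _ => Finset.sum_congr rfl fun j _ => ?_
  rw [RCLike.star_def, ← Complex.normSq_eq_conj_mul_self, Complex.ofReal_re,
    Complex.normSq_eq_norm_sq]

theorem nrm_star (A : Mt N) : ‖Aᴴ‖ = ‖A‖ := Matrix.frobenius_norm_conjTranspose A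

theorem nrm_mul (A B : Mt N) : ‖A * B‖ ≤ ‖A‖ * ‖B‖ := Matrix.frobenius_norm_mul A B

theorem uni_left {Q : Mt N} (hQ : Q ∈ unitaryGroup (Fin N) ℂ) (A : Mt N) : ‖Q * A‖ = ‖A‖ := by
  have h : ‖Q * A‖ ^ 2 = ‖A‖ ^ 2 := by
    rw [nrm_tr, nrm_tr, conjTranspose_mul, mul_assoc, ← mul_assoc Qᴴ, ← star_eq_conjTranspose Q,
      (mem_unitaryGroup_iff').1 hQ, one_mul]
  exact (sq_eq_sq₀ (norm_nonneg _) (norm_nonneg _)).mp h

theorem uni_star {Q : Mt N} (hQ : Q ∈ unitaryGroup (Fin N) ℂ) :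
    star Q ∈ unitaryGroup (Fin N) ℂ := by
  rw [mem_unitaryGroup_iff, star_star]
  exact (mem_unitaryGroup_iff').1 hQ

theorem uni_right {Q : Mt N} (hQ : Q ∈ unitaryGroup (Fin N) ℂ) (A : Mt N) : ‖A * Q‖ = ‖A‖ := by
  rw [← nrm_star, conjTranspose_mul, ← star_eq_conjTranspose Q,
    uni_left (uni_star hQ), nrm_star]

theorem su_uni (g : SU N) : g.1 ∈ unitaryGroup (Fin N) ℂ :=
  specialUnitaryGroup_le_unitaryGroup g.2

theorem su_inv (g : SU N) : (g⁻¹).1 = g.1ᴴ := rfl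

theorem nrm_entry (A : Mt N) (i j : Fin N) : ‖A i j‖ ≤ ‖A‖ := by
  have h : ‖A i j‖ ^ 2 ≤ ‖A‖ ^ 2 := by
    rw [nrm_sq]
    have h1 := Finset.single_le_sum (f := fun i => ∑ j, ‖A i j‖ ^ 2)
      (fun i _ => Finset.sum_nonneg fun j _ => sq_nonneg _) (Finset.mem_univ i)
    have h2 := Finset.single_le_sum (f := fun j => ‖A i j‖ ^ 2)
      (fun j _ => sq_nonneg _) (Finset.mem_univ j)
    exact h2.trans h1
  exact (sq_le_sq₀ (norm_nonneg _) (norm_nonneg _)).mp h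

theorem tr_le (A : Mt N) : ‖trace A‖ ≤ N * ‖A‖ := by
  rw [Matrix.trace]
  refine (norm_sum_le _ _).trans ?_
  refine (Finset.sum_le_card_nsmul _ _ ‖A‖ fun i _ => nrm_entry A i i).trans ?_
  simp

/-- Cauchy-Schwarz for the trace -/
theorem tr_mul_le (A B : Mt N) : ‖trace (A * B)‖ ≤ ‖A‖ * ‖B‖ := by
  have h1 : ‖trace (A * B)‖ ≤ ∑ p : Fin N × Fin N, ‖A p.1 p.2‖ * ‖Bᴴ p.1 p.2‖ := by
    rw [Matrix.trace]
    simp only [Matrix.diag, Matrix.mul_apply]
    rw [← Finset.univ_product_univ, Finset.sum_product]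
    refine (norm_sum_le _ _).trans (Finset.sum_le_sum fun i _ => ?_)
    refine (norm_sum_le _ _).trans (Finset.sum_le_sum fun j _ => ?_)
    rw [norm_mul, conjTranspose_apply, norm_star]
  have h2 := Finset.sum_mul_sq_le_sq_mul_sq (Finset.univ : Finset (Fin N × Fin N))
    (fun p => ‖A p.1 p.2‖) (fun p => ‖Bᴴ p.1 p.2‖)
  have h3 : ∀ C : Mt N, ∑ p : Fin N × Fin N, ‖C p.1 p.2‖ ^ 2 = ‖C‖ ^ 2 := by
    intro C
    rw [nrm_sq, ← Finset.univ_product_univ, Finset.sum_product]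
  rw [h3, h3, nrm_star] at h2
  have h4 : (∑ p : Fin N × Fin N, ‖A p.1 p.2‖ * ‖Bᴴ p.1 p.2‖) ≤ ‖A‖ * ‖B‖ := by
    refine abs_le_of_sq_le_sq' ?_ (by positivity) |>.2
    rw [mul_pow]
    exact h2
  exact h1.trans h4

theorem pow_sub_pow_sum (A B : Mt N) (c : ℕ) :
    A ^ c - B ^ c = ∑ r ∈ Finset.range c, A ^ r * (A - B) * B ^ (c - 1 - r) := by
  induction c with
  | zero => simp
  | succ c ih =>
    rw [Finset.sum_range_succ]
    have h1 : ∑ r ∈ Finset.range c, A ^ r * (A - B) * B ^ (c + 1 - 1 - r)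
        = (∑ r ∈ Finset.range c, A ^ r * (A - B) * B ^ (c - 1 - r)) * B := by
      rw [Finset.sum_mul]
      refine Finset.sum_congr rfl fun r hr => ?_
      rw [Finset.mem_range] at hr
      have : c + 1 - 1 - r = (c - 1 - r) + 1 := by omega
      rw [this, pow_succ, ← mul_assoc]
    rw [h1, ← ih]
    have : c + 1 - 1 - c = 0 := by omega
    rw [this, pow_zero, mul_one, pow_succ, pow_succ]
    noncomm_ring

/-- powers of unitary matrices -/
theorem pow_sub_le {A B : Mt N} (hA : A ∈ unitaryGroup (Fin N) ℂ)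
    (hB : B ∈ unitaryGroup (Fin N) ℂ) (c : ℕ) : ‖A ^ c - B ^ c‖ ≤ c * ‖A - B‖ := by
  rw [pow_sub_pow_sum]
  refine (norm_sum_le _ _).trans ?_
  refine (Finset.sum_le_card_nsmul _ _ ‖A - B‖ fun r _ => ?_).trans ?_
  · rw [uni_right (pow_mem hB _), uni_left (pow_mem hA _)]
  · simp

/-- the expansion of the trace of a power of `E B` -/
theorem tr_pow_exp {E B : Mt N} (hE : E ∈ unitaryGroup (Fin N) ℂ)
    (hB : B ∈ unitaryGroup (Fin N) ℂ) (c : ℕ) :
    ‖trace ((E * B) ^ c) - trace (B ^ c) - c * trace ((E - 1) * B ^ c)‖ ≤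
      c ^ 2 * ‖E - 1‖ ^ 2 := by
  have hA : E * B ∈ unitaryGroup (Fin N) ℂ := mul_mem hE hB
  have hsub : E * B - B = (E - 1) * B := by rw [sub_mul, one_mul]
  have hn : ‖E * B - B‖ = ‖E - 1‖ := by rw [hsub, uni_right hB]
  have h1 : trace ((E * B) ^ c) - trace (B ^ c) - c * trace ((E - 1) * B ^ c)
      = ∑ r ∈ Finset.range c, trace (((E - 1) * B ^ (c - r)) * ((E * B) ^ r - B ^ r)) := by
    rw [← trace_sub, pow_sub_pow_sum, trace_sum]
    have h2 : (c : ℂ) * trace ((E - 1) * B ^ c)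
        = ∑ r ∈ Finset.range c, trace ((E - 1) * B ^ c) := by simp
    rw [h2, ← Finset.sum_sub_distrib]
    refine Finset.sum_congr rfl fun r hr => ?_
    rw [Finset.mem_range] at hr
    have e1 : B ^ (c - r) = B * B ^ (c - 1 - r) := by
      rw [← pow_succ']
      congr 1
      omega
    have e2 : B ^ c = B ^ (c - r) * B ^ r := by
      rw [← pow_add]
      congr 1
      omega
    rw [hsub, mul_sub ((E - 1) * B ^ (c - r)), trace_sub]
    congr 1
    · rw [e1, mul_assoc, trace_mul_comm]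
      simp only [mul_assoc]
    · rw [e2, mul_assoc]
  rw [h1]
  refine (norm_sum_le _ _).trans ?_
  refine (Finset.sum_le_card_nsmul _ _ ((c : ℝ) * ‖E - 1‖ ^ 2) fun r hr => ?_).trans ?_
  · rw [Finset.mem_range] at hr
    refine (tr_mul_le _ _).trans ?_
    rw [uni_right (pow_mem hB _)]
    have h3 := pow_sub_le hA hB r
    rw [hn] at h3
    have h4 : (r : ℝ) ≤ c := by exact_mod_cast hr.le
    have h5 : (r : ℝ) * ‖E - 1‖ ≤ c * ‖E - 1‖ := mul_le_mul_of_nonneg_right h4 (norm_nonneg _)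
    calc ‖E - 1‖ * ‖(E * B) ^ r - B ^ r‖ ≤ ‖E - 1‖ * (c * ‖E - 1‖) :=
          mul_le_mul_of_nonneg_left (h3.trans h5) (norm_nonneg _)
      _ = c * ‖E - 1‖ ^ 2 := by ring
  · rw [Finset.card_range, nsmul_eq_mul]
    apply le_of_eq
    ring

end

end Run7.h593.MQ
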