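import Pool.Agent.Run7.h593.MQ.Base

/-!
# Project MQ (helper630), MP_7f377f_mp: transport of the loops (T1, T2, T3)
-/

open Matrix
open scoped Matrix.Norms.Frobenius ComplexConjugate

namespace Run7.h593.MQ

open Run7.h4.YM Run7.h630.ML Run7.h630.MQ

noncomputable section

variable {N n L l : ℕ}

/-- the partial loop -/
def pl (U : Link n L l → SU N) (x : Site n L l) (m : ℕ) : SU N :=
  ((List.range m).map fun t : ℕ => U (2, x + t • dir 2)).prod

theorem pl_zero (U : Link n L l → SU N) (x : Site n L l) : pl U x 0 = 1 := by simp [pl]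

theorem pl_succ (U : Link n L l → SU N) (x : Site n L l) (m : ℕ) :
    pl U x (m + 1) = pl U x m * U (2, x + m • dir 2) := by
  unfold pl
  rw [List.range_succ, List.map_append, List.prod_append]
  simp

theorem pl_succ' (U : Link n L l → SU N) (x : Site n L l) (m : ℕ) :
    pl U x (m + 1) = U (2, x) * pl U (x + dir 2) m := by
  induction m with
  | zero => rw [pl_succ]; simp [pl]
  | succ m ih =>
    rw [pl_succ, ih, pl_succ, mul_assoc]
    congr 4
    rw [add_assoc, succ_nsmul']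

theorem pl_l (U : Link n L l → SU N) (x : Site n L l) : pl U x l = lp U x := rfl

theorem l_dir (j : Fin 4) (hj : j = 2) : l • (dir j : Site n L l) = 0 := by
  subst hj
  simp [dir]

theorem dir2_nsmul (m : ℕ) : m • (dir 2 : Site n L l) = (0, 0, (m : ZMod l), 0) := by
  simp [dir]

/-- the loop based at the next point -/
theorem lp_step (U : Link n L l → SU N) (x : Site n L l) :
    U (2, x) * lp U (x + dir 2) = lp U x * U (2, x) := by
  rw [← pl_l, ← pl_succ', pl_succ, l_dir 2 rfl, add_zero, pl_l]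

theorem lp_shift (U : Link n L l → SU N) (x : Site n L l) (m : ℕ) :
    lp U (x + m • dir 2) = (pl U x m)⁻¹ * lp U x * pl U x m := by
  induction m with
  | zero => simp [pl_zero]
  | succ m ih =>
    have h := lp_step U (x + m • dir 2)
    have h2 : x + m • dir 2 + dir 2 = x + (m + 1) • dir 2 := by
      rw [add_assoc, succ_nsmul]
    rw [h2] at h
    rw [pl_succ, _root_.mul_inv_rev]
    have h3 : lp U (x + (m + 1) • dir 2) = (U (2, x + m • dir 2))⁻¹ *
        (lp U (x + m • dir 2) * U (2, x + m • dir 2)) := by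
      rw [← h, inv_mul_cancel_left]
    rw [h3, ih]
    simp only [mul_assoc]

theorem W_shift (c : ℕ) (U : Link n L l → SU N) (x : Site n L l) (m : ℕ) :
    W c U (x + m • dir 2) = W c U x := by
  unfold W
  rw [lp_shift]
  have h : ((pl U x m)⁻¹ * lp U x * pl U x m) ^ c = (pl U x m)⁻¹ * (lp U x ^ c * pl U x m) := by
    have := conj_pow (a := (pl U x m)⁻¹) (b := lp U x) (i := c)
    rw [inv_inv] at this
    rw [this, mul_assoc]
  rw [h]
  have e : ((pl U x m)⁻¹ * (lp U x ^ c * pl U x m)).1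
      = ((pl U x m)⁻¹).1 * ((lp U x ^ c).1 * (pl U x m).1) := rfl
  rw [e, trace_mul_comm, mul_assoc]
  have e2 : (pl U x m).1 * ((pl U x m)⁻¹).1 = 1 := by
    have := congrArg Subtype.val (mul_inv_cancel (pl U x m))
    exact this
  rw [e2, mul_one]

/-! ### the twists -/

theorem om_norm (N k : ℕ) : ‖om N k‖ = 1 := by
  unfold om
  have : (2 * Real.pi * Complex.I * (k / N) : ℂ) = ((2 * Real.pi * (k / N) : ℝ) : ℂ) * Complex.I := by
    push_cast
    ring
  rw [this, Complex.norm_exp_ofReal_mul_I]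

theorem zt_norm (N k : ℕ) (x : Site n L l) (j : Fin 4) : ‖zt N k x j‖ = 1 := by
  unfold zt
  split_ifs
  · exact om_norm N k
  · simp

theorem Zt_norm (N k : ℕ) (x : Site n L l) (j : Fin 4) : ‖Zt N k x j‖ = 1 := by
  unfold Zt
  split_ifs
  · exact om_norm N k
  · simp

theorem mul_conj_one {z : ℂ} (hz : ‖z‖ = 1) : z * conj z = 1 := by
  rw [Complex.mul_conj, Complex.normSq_eq_norm_sq, hz]
  simp

theorem zt_prod [NeZero l] (N k : ℕ) (x : Site n L l) (j : Fin 4) :
    ∏ t ∈ Finset.range l, zt N k (x + t • dir 2) j = Zt N k x j := by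
  unfold Zt
  split_ifs with h
  · obtain ⟨hj, h2⟩ := h
    have hval : (-x.2.2.1).val < l := ZMod.val_lt _
    rw [Finset.prod_eq_single_of_mem (-x.2.2.1).val (Finset.mem_range.2 hval)]
    · unfold zt
      rw [if_pos]
      refine ⟨hj, ?_⟩
      rw [dir2_nsmul]
      ext
      · simp
      · simpa using h2
    · intro t ht htne
      unfold zt
      rw [if_neg]
      rintro ⟨-, h3⟩
      apply htne
      rw [dir2_nsmul] at h3
      have h4 : x.2.2.1 + (t : ZMod l) = 0 := congrArg Prod.fst h3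
      have h5 : -x.2.2.1 = (t : ZMod l) := by
        rw [neg_eq_iff_add_eq_zero]
        exact h4
      rw [h5, ZMod.val_natCast, Nat.mod_eq_of_lt (Finset.mem_range.1 ht)]
  · refine Finset.prod_eq_one fun t _ => ?_
    unfold zt
    rw [if_neg]
    rintro ⟨h1, h2⟩
    apply h
    refine ⟨h1, ?_⟩
    rw [dir2_nsmul] at h2
    have h3 : x.2.2.2 + 0 = 0 := congrArg Prod.snd h2
    simpa using h3

/-! ### the product of the deviations -/

/-- the deviation, transported to the base point -/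
def Dv (k : ℕ) (U : Link n L l → SU N) (x : Site n L l) (j : Fin 4) (t : ℕ) : Mt N :=
  (pl U x t).1 * Fd k U (x + t • dir 2) j * (pl U x t).1ᴴ

/-- the product of the `1 + Dv` -/
def Ev (k : ℕ) (U : Link n L l → SU N) (x : Site n L l) (j : Fin 4) : ℕ → Mt N
  | 0 => 1
  | t + 1 => Ev k U x j t * (1 + Dv k U x j t)

theorem smul_uni {z : ℂ} (hz : ‖z‖ = 1) {A : Mt N} (hA : A ∈ unitaryGroup (Fin N) ℂ) :
    z • A ∈ unitaryGroup (Fin N) ℂ := by
  rw [mem_unitaryGroup_iff, star_smul, smul_mul_smul_comm, (mem_unitaryGroup_iff).1 hA]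
  have : z * star z = 1 := mul_conj_one hz
  rw [this, one_smul]

theorem one_Fd (k : ℕ) (U : Link n L l → SU N) (x : Site n L l) (j : Fin 4) :
    1 + Fd k U x j = conj (zt N k x j) • (plaq U x j 2).1 := by
  unfold Fd
  abel

theorem pl_cancel (U : Link n L l → SU N) (x : Site n L l) (t : ℕ) :
    (pl U x t).1 * (pl U x t).1ᴴ = 1 := by
  rw [← star_eq_conjTranspose]
  exact (mem_unitaryGroup_iff).1 (su_uni _)

theorem pl_cancel' (U : Link n L l → SU N) (x : Site n L l) (t : ℕ) :
    (pl U x t).1ᴴ * (pl U x t).1 = 1 := by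
  rw [← star_eq_conjTranspose]
  exact (mem_unitaryGroup_iff').1 (su_uni _)

theorem one_Dv (k : ℕ) (U : Link n L l → SU N) (x : Site n L l) (j : Fin 4) (t : ℕ) :
    1 + Dv k U x j t = (pl U x t).1 * (1 + Fd k U (x + t • dir 2) j) * (pl U x t).1ᴴ := by
  unfold Dv
  rw [mul_add, add_mul, mul_one, pl_cancel]

theorem Dv_norm (k : ℕ) (U : Link n L l → SU N) (x : Site n L l) (j : Fin 4) (t : ℕ) :
    ‖Dv k U x j t‖ = ‖Fd k U (x + t • dir 2) j‖ := by
  unfold Dv
  have h : (pl U x t).1ᴴ ∈ unitaryGroup (Fin N) ℂ := uni_star (su_uni (pl U x t))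
  rw [uni_right h, uni_left (su_uni _)]

theorem one_Dv_uni (k : ℕ) (U : Link n L l → SU N) (x : Site n L l) (j : Fin 4) (t : ℕ) :
    1 + Dv k U x j t ∈ unitaryGroup (Fin N) ℂ := by
  rw [one_Dv, one_Fd]
  refine mul_mem (mul_mem (su_uni _) (smul_uni ?_ (su_uni _))) (uni_star (su_uni (pl U x t)))
  rw [Complex.norm_conj]
  exact zt_norm _ _ _ _

theorem Ev_uni (k : ℕ) (U : Link n L l → SU N) (x : Site n L l) (j : Fin 4) (t : ℕ) :
    Ev k U x j t ∈ unitaryGroup (Fin N) ℂ := by
  induction t with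
  | zero => exact one_mem _
  | succ t ih => exact mul_mem ih (one_Dv_uni k U x j t)

theorem Ev_succ_sub (k : ℕ) (U : Link n L l → SU N) (x : Site n L l) (j : Fin 4) (t : ℕ) :
    Ev k U x j (t + 1) = Ev k U x j t + Ev k U x j t * Dv k U x j t := by
  have : Ev k U x j (t + 1) = Ev k U x j t * (1 + Dv k U x j t) := rfl
  rw [this, mul_add, mul_one]

theorem Ev_bound (k : ℕ) (U : Link n L l → SU N) (x : Site n L l) (j : Fin 4) (m : ℕ) :
    ‖Ev k U x j m - 1‖ ≤ ∑ t ∈ Finset.range m, ‖Fd k U (x + t • dir 2) j‖ := by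
  induction m with
  | zero => simp [Ev]
  | succ m ih =>
    rw [Finset.sum_range_succ, Ev_succ_sub]
    have : Ev k U x j m + Ev k U x j m * Dv k U x j m - 1
        = (Ev k U x j m - 1) + Ev k U x j m * Dv k U x j m := by abel
    rw [this]
    refine (norm_add_le _ _).trans (add_le_add ih ?_)
    rw [uni_left (Ev_uni k U x j m), Dv_norm]

theorem Ev_bound2 (k : ℕ) (U : Link n L l → SU N) (x : Site n L l) (j : Fin 4) (m : ℕ) :
    ‖Ev k U x j m - 1 - ∑ t ∈ Finset.range m, Dv k U x j t‖ ≤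
      (∑ t ∈ Finset.range m, ‖Fd k U (x + t • dir 2) j‖) ^ 2 := by
  induction m with
  | zero => simp [Ev]
  | succ m ih =>
    rw [Finset.sum_range_succ, Finset.sum_range_succ, Ev_succ_sub]
    have : Ev k U x j m + Ev k U x j m * Dv k U x j m - 1 -
          (∑ t ∈ Finset.range m, Dv k U x j t + Dv k U x j m)
        = (Ev k U x j m - 1 - ∑ t ∈ Finset.range m, Dv k U x j t) +
          (Ev k U x j m - 1) * Dv k U x j m := by
      rw [sub_mul, one_mul]
      abel
    rw [this]
    have h1 : ‖(Ev k U x j m - 1) * Dv k U x j m‖ ≤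
        (∑ t ∈ Finset.range m, ‖Fd k U (x + t • dir 2) j‖) * ‖Fd k U (x + m • dir 2) j‖ := by
      refine (nrm_mul _ _).trans ?_
      rw [Dv_norm]
      exact mul_le_mul_of_nonneg_right (Ev_bound k U x j m) (norm_nonneg _)
    have h2 : 0 ≤ (∑ t ∈ Finset.range m, ‖Fd k U (x + t • dir 2) j‖) :=
      Finset.sum_nonneg fun _ _ => norm_nonneg _
    have h3 : 0 ≤ ‖Fd k U (x + m • dir 2) j‖ := norm_nonneg _
    refine (norm_add_le _ _).trans ((add_le_add ih h1).trans ?_)
    nlinarith [mul_nonneg h2 h3]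

/-- the transport of the partial loop -/
theorem transport (k : ℕ) (U : Link n L l → SU N) (x : Site n L l) (j : Fin 4) (m : ℕ) :
    (U (j, x) * pl U (x + dir j) m * (U (j, x + m • dir 2))⁻¹).1 =
      (∏ t ∈ Finset.range m, zt N k (x + t • dir 2) j) • (Ev k U x j m * (pl U x m).1) := by
  induction m with
  | zero => simp [pl_zero, Ev]
  | succ m ih =>
    have h1 : U (j, x) * pl U (x + dir j) (m + 1) * (U (j, x + (m + 1) • dir 2))⁻¹ =
        (U (j, x) * pl U (x + dir j) m * (U (j, x + m • dir 2))⁻¹) *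
          (plaq U (x + m • dir 2) j 2 * U (2, x + m • dir 2)) := by
      rw [pl_succ]
      unfold plaq
      have e1 : x + dir j + m • dir 2 = x + m • dir 2 + dir j := by abel
      have e2 : x + m • dir 2 + dir 2 = x + (m + 1) • dir 2 := by
        rw [add_assoc, succ_nsmul]
      rw [e1, e2]
      group
    have h2 : (U (j, x) * pl U (x + dir j) (m + 1) * (U (j, x + (m + 1) • dir 2))⁻¹).1 =
        (U (j, x) * pl U (x + dir j) m * (U (j, x + m • dir 2))⁻¹).1 *
          ((plaq U (x + m • dir 2) j 2).1 * (U (2, x + m • dir 2)).1) := by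
      rw [h1]
      rfl
    rw [h2, ih, Finset.prod_range_succ]
    have h3 : (plaq U (x + m • dir 2) j 2).1
        = zt N k (x + m • dir 2) j • (1 + Fd k U (x + m • dir 2) j) := by
      rw [one_Fd, smul_smul, mul_conj_one (zt_norm _ _ _ _), one_smul]
    have h4 : Ev k U x j (m + 1) * (pl U x (m + 1)).1 =
        (Ev k U x j m * (pl U x m).1) *
          ((1 + Fd k U (x + m • dir 2) j) * (U (2, x + m • dir 2)).1) := by
      have e1 : Ev k U x j (m + 1) = Ev k U x j m * (1 + Dv k U x j m) := rfl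
      have e2 : (pl U x (m + 1)).1 = (pl U x m).1 * (U (2, x + m • dir 2)).1 := by
        rw [pl_succ]
        rfl
      rw [e1, e2, one_Dv]
      simp only [mul_assoc]
      rw [← mul_assoc (pl U x m).1ᴴ, pl_cancel', one_mul]
    rw [h3, h4, smul_mul_assoc (zt N k (x + m • dir 2) j), smul_mul_smul_comm]

theorem transport_l [NeZero l] (k : ℕ) (U : Link n L l → SU N) (x : Site n L l) (j : Fin 4) :
    (U (j, x)).1 * (lp U (x + dir j)).1 * (U (j, x)).1ᴴ =
      Zt N k x j • (Ev k U x j l * (lp U x).1) := by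
  have h := transport k U x j l
  rw [l_dir 2 rfl, add_zero, zt_prod, pl_l, pl_l] at h
  exact h

theorem transport_pow [NeZero l] (k : ℕ) (U : Link n L l → SU N) (x : Site n L l) (j : Fin 4)
    (c : ℕ) :
    (U (j, x)).1 * (lp U (x + dir j) ^ c).1 * (U (j, x)).1ᴴ =
      Zt N k x j ^ c • (Ev k U x j l * (lp U x).1) ^ c := by
  rw [← smul_pow, ← transport_l]
  have h : (U (j, x) * lp U (x + dir j) * (U (j, x))⁻¹) ^ c
      = U (j, x) * lp U (x + dir j) ^ c * (U (j, x))⁻¹ := conj_pow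
  have h2 := congrArg Subtype.val h
  exact h2.symm

theorem W_transport [NeZero l] (k : ℕ) (U : Link n L l → SU N) (x : Site n L l) (j : Fin 4)
    (c : ℕ) :
    conj (Zt N k x j) ^ c * W c U (x + dir j) = trace ((Ev k U x j l * (lp U x).1) ^ c) := by
  have h := congrArg trace (transport_pow k U x j c)
  rw [trace_smul, trace_mul_comm, ← mul_assoc] at h
  have e : (U (j, x)).1ᴴ * (U (j, x)).1 = 1 := by
    rw [← star_eq_conjTranspose]
    exact (mem_unitaryGroup_iff').1 (su_uni _)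
  rw [e, one_mul] at h
  unfold W
  rw [h, smul_eq_mul, ← mul_assoc, ← mul_pow, mul_comm (conj _),
    mul_conj_one (Zt_norm _ _ _ _), one_pow, one_mul]

theorem lp_pow_val (U : Link n L l → SU N) (x : Site n L l) (c : ℕ) :
    (lp U x ^ c).1 = (lp U x).1 ^ c := rfl

/-- T1 -/
theorem t_T1 : S_T1 := by
  intro N n L l k _ _ _ _ U x j _ c
  rw [transport_pow, ← smul_sub, norm_smul, norm_pow, Zt_norm, one_pow, one_mul, lp_pow_val]
  refine (pow_sub_le (mul_mem (Ev_uni k U x j l) (su_uni _)) (su_uni _) c).trans ?_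
  refine mul_le_mul_of_nonneg_left ?_ (Nat.cast_nonneg c)
  have : Ev k U x j l * (lp U x).1 - (lp U x).1 = (Ev k U x j l - 1) * (lp U x).1 := by
    rw [sub_mul, one_mul]
  rw [this, uni_right (su_uni _)]
  exact Ev_bound k U x j l

/-- T3 -/
theorem t_T3 : S_T3 := by
  intro N n L l k _ _ _ _ U x j _ c
  rw [W_transport]
  unfold W
  rw [lp_pow_val, ← trace_sub]
  refine (tr_le _).trans ?_
  have h := pow_sub_le (mul_mem (Ev_uni k U x j l) (su_uni (lp U x))) (su_uni (lp U x)) c
  have : Ev k U x j l * (lp U x).1 - (lp U x).1 = (Ev k U x j l - 1) * (lp U x).1 := by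
    rw [sub_mul, one_mul]
  rw [this, uni_right (su_uni _)] at h
  have h2 : ‖(Ev k U x j l * (lp U x).1) ^ c - (lp U x).1 ^ c‖ ≤ c * fr k U x j :=
    h.trans (mul_le_mul_of_nonneg_left (Ev_bound k U x j l) (Nat.cast_nonneg c))
  calc (N : ℝ) * ‖(Ev k U x j l * (lp U x).1) ^ c - (lp U x).1 ^ c‖ ≤ N * (c * fr k U x j) :=
        mul_le_mul_of_nonneg_left h2 (Nat.cast_nonneg N)
    _ = c * N * fr k U x j := by ring

/-- T2 -/
theorem t_T2 : S_T2 := by
  intro N n L l k _ _ _ _ U x j _ c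
  have hfr : 0 ≤ fr k U x j := Finset.sum_nonneg fun _ _ => norm_nonneg _
  have hE1 : ‖Ev k U x j l - 1‖ ≤ fr k U x j := Ev_bound k U x j l
  have hE2 : ‖Ev k U x j l - 1 - ∑ t ∈ Finset.range l, Dv k U x j t‖ ≤ fr k U x j ^ 2 :=
    Ev_bound2 k U x j l
  have h1 : ∀ t, trace (Fd k U (x + t • dir 2) j * (lp U (x + t • dir 2) ^ c).1)
      = trace (Dv k U x j t * (lp U x).1 ^ c) := by
    intro t
    have e1 : (lp U (x + t • dir 2) ^ c).1
        = (pl U x t).1ᴴ * ((lp U x).1 ^ c * (pl U x t).1) := by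
      rw [lp_shift]
      have e : ((pl U x t)⁻¹ * lp U x * pl U x t) ^ c
          = (pl U x t)⁻¹ * (lp U x ^ c * pl U x t) := by
        have := conj_pow (a := (pl U x t)⁻¹) (b := lp U x) (i := c)
        rw [inv_inv] at this
        rw [this, mul_assoc]
      rw [e]
      rfl
    unfold Dv
    rw [e1, ← mul_assoc, ← mul_assoc, trace_mul_comm]
    simp only [mul_assoc]
  have h2 : (∑ t ∈ Finset.range l, trace (Fd k U (x + t • dir 2) j *
        (lp U (x + t • dir 2) ^ c).1))
      = trace ((∑ t ∈ Finset.range l, Dv k U x j t) * (lp U x).1 ^ c) := by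
    rw [Finset.sum_mul, trace_sum]
    exact Finset.sum_congr rfl fun t _ => h1 t
  rw [W_transport, h2]
  unfold W
  rw [lp_pow_val]
  have h3 := tr_pow_exp (Ev_uni k U x j l) (su_uni (lp U x)) c
  have h4 : trace ((Ev k U x j l * (lp U x).1) ^ c) - trace ((lp U x).1 ^ c) -
        c * trace ((∑ t ∈ Finset.range l, Dv k U x j t) * (lp U x).1 ^ c)
      = (trace ((Ev k U x j l * (lp U x).1) ^ c) - trace ((lp U x).1 ^ c) -
          c * trace ((Ev k U x j l - 1) * (lp U x).1 ^ c)) +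
        c * trace ((Ev k U x j l - 1 - ∑ t ∈ Finset.range l, Dv k U x j t) *
          (lp U x).1 ^ c) := by
    rw [sub_mul _ (∑ t ∈ Finset.range l, Dv k U x j t), trace_sub]
    ring
  rw [h4]
  have h5 : ‖(c : ℂ) * trace ((Ev k U x j l - 1 - ∑ t ∈ Finset.range l, Dv k U x j t) *
      (lp U x).1 ^ c)‖ ≤ c * (N * fr k U x j ^ 2) := by
    rw [norm_mul, Complex.norm_natCast]
    refine mul_le_mul_of_nonneg_left ?_ (Nat.cast_nonneg c)
    refine (tr_le _).trans ?_
    rw [uni_right (pow_mem (su_uni _) _)]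
    exact mul_le_mul_of_nonneg_left hE2 (Nat.cast_nonneg N)
  have h6 : ‖Ev k U x j l - 1‖ ^ 2 ≤ fr k U x j ^ 2 :=
    pow_le_pow_left₀ (norm_nonneg _) hE1 2
  have h7 : (c : ℝ) ^ 2 * ‖Ev k U x j l - 1‖ ^ 2 ≤ c ^ 2 * fr k U x j ^ 2 :=
    mul_le_mul_of_nonneg_left h6 (by positivity)
  refine (norm_add_le _ _).trans ((add_le_add (h3.trans h7) h5).trans ?_)
  apply le_of_eq
  ring

end

end Run7.h593.MQ
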