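import Pool.Agent.Run7.h593.MQ.T123

/-!
# Project MQ (helper630), MP_7f377f_mp: summation in the twisted direction (T4, T5)
-/

open Matrix
open scoped Matrix.Norms.Frobenius ComplexConjugate

namespace Run7.h593.MQ

open Run7.h4.YM Run7.h630.ML Run7.h630.MQ

noncomputable section

variable {N n L l : ℕ}

/-- the points of the fibre -/
def xt (l : ℕ) (u : ZMod n × ZMod L) (t : ℕ) : Site n L l := (u.1, u.2, 0, 1 + (t : ZMod l))

theorem xt_dir (u : ZMod n × ZMod L) (t : ℕ) : xt l u t + dir 3 = xt l u (t + 1) := by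
  unfold xt dir
  ext <;> simp [add_assoc]

theorem xt_l (u : ZMod n × ZMod L) : xt l u l = xt l u 0 := by
  unfold xt
  simp

/-- the value after one step -/
def ws (k c : ℕ) (U : Link n L l → SU N) (u : ZMod n × ZMod L) (t : ℕ) : ℂ :=
  conj (Zt N k (xt l u t) 3) ^ c * W c U (xt l u t + dir 3)

theorem ws_lt [NeZero l] (k c : ℕ) (U : Link n L l → SU N) (u : ZMod n × ZMod L) (t : ℕ)
    (ht : t + 1 < l) : ws k c U u t = W c U (xt l u (t + 1)) := by
  unfold ws
  rw [xt_dir]
  have : Zt N k (xt l u t) 3 = 1 := by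
    unfold Zt
    rw [if_neg]
    rintro ⟨-, h⟩
    have h2 : (1 : ZMod l) + (t : ZMod l) = 0 := h
    have h3 : ((t + 1 : ℕ) : ZMod l) = 0 := by
      push_cast
      rw [add_comm]
      exact h2
    rw [ZMod.natCast_eq_zero_iff] at h3
    have := Nat.le_of_dvd (Nat.succ_pos t) h3
    omega
  rw [this]
  simp

theorem ws_last (k c : ℕ) (U : Link n L l → SU N) (u : ZMod n × ZMod L) (t : ℕ)
    (ht : t + 1 = l) : ws k c U u t = conj (om N k) ^ c * W c U (xt l u 0) := by
  unfold ws
  have h1 : xt l u t + dir 3 = xt l u 0 := by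
    rw [xt_dir, ht, xt_l]
  rw [h1]
  have : Zt N k (xt l u t) 3 = om N k := by
    unfold Zt
    rw [if_pos]
    refine ⟨rfl, ?_⟩
    have h2 : (1 : ZMod l) + (t : ZMod l) = 0 := by
      have : ((t + 1 : ℕ) : ZMod l) = 0 := by rw [ht]; simp
      push_cast at this
      rw [add_comm]
      exact this
    exact h2
  rw [this]

theorem om_pow_conj (N k c : ℕ) : om N k ^ c * conj (om N k) ^ c = 1 := by
  rw [← mul_pow, mul_conj_one (om_norm N k), one_pow]

/-- T4 -/
theorem t_T4 : S_T3 → S_T4 := by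
  intro hT3 N n L l k _ _ _ _ U u c q hq
  obtain ⟨l', hl'⟩ := Nat.exists_eq_succ_of_ne_zero (NeZero.ne l)
  have key : (Complex.exp (Complex.I * q) - 1) *
      (∑ t ∈ Finset.range l, Complex.exp (Complex.I * (q * t)) * W c U (xt l u t)) =
      ∑ t ∈ Finset.range l, Complex.exp (Complex.I * (q * (t + 1 : ℕ))) *
        (W c U (xt l u t) - ws k c U u t) := by
    have e1 : ∑ t ∈ Finset.range l, Complex.exp (Complex.I * (q * (t + 1 : ℕ))) * ws k c U u t
        = ∑ t ∈ Finset.range l, Complex.exp (Complex.I * (q * t)) * W c U (xt l u t) := by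
      have hr : Finset.range l = Finset.range (l' + 1) := by rw [hl']
      rw [hr, Finset.sum_range_succ, Finset.sum_range_succ']
      congr 1
      · refine Finset.sum_congr rfl fun t ht => ?_
        rw [Finset.mem_range] at ht
        rw [ws_lt k c U u t (by omega)]
      · rw [ws_last k c U u l' hl'.symm]
        have e2 : Complex.exp (Complex.I * (q * (l' + 1 : ℕ))) = om N k ^ c := by
          rw [← hq, hl']
        rw [e2, ← mul_assoc, om_pow_conj]
        simp
    rw [← e1]
    have e3 : ∑ t ∈ Finset.range l, Complex.exp (Complex.I * (q * (t + 1 : ℕ))) *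
          (W c U (xt l u t) - ws k c U u t) =
        (∑ t ∈ Finset.range l, Complex.exp (Complex.I * (q * (t + 1 : ℕ))) * W c U (xt l u t)) -
          ∑ t ∈ Finset.range l, Complex.exp (Complex.I * (q * (t + 1 : ℕ))) * ws k c U u t := by
      rw [← Finset.sum_sub_distrib]
      exact Finset.sum_congr rfl fun t _ => by ring
    rw [e3]
    have e4 : ∑ t ∈ Finset.range l, Complex.exp (Complex.I * (q * (t + 1 : ℕ))) * W c U (xt l u t)
        = Complex.exp (Complex.I * q) *
          ∑ t ∈ Finset.range l, Complex.exp (Complex.I * (q * t)) * W c U (xt l u t) := by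
      rw [Finset.mul_sum]
      refine Finset.sum_congr rfl fun t _ => ?_
      have e5 : Complex.exp (Complex.I * (q * (t + 1 : ℕ))) =
          Complex.exp (Complex.I * q) * Complex.exp (Complex.I * (q * t)) := by
        rw [← Complex.exp_add]
        congr 1
        push_cast
        ring
      rw [e5]
      ring
    rw [e4, sub_mul, one_mul, e1]
  have h0 : ‖Complex.exp (Complex.I * q) - 1‖ *
      ‖∑ t ∈ Finset.range l, Complex.exp (Complex.I * (q * t)) * W c U (xt l u t)‖ ≤
      c * N * ∑ t ∈ Finset.range l, fr k U (xt l u t) 3 := by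
    rw [← norm_mul, key, Finset.mul_sum]
    refine (norm_sum_le _ _).trans (Finset.sum_le_sum fun t _ => ?_)
    rw [norm_mul]
    have h1 : ‖Complex.exp (Complex.I * (q * (t + 1 : ℕ)))‖ = 1 := by
      have : (Complex.I * (q * (t + 1 : ℕ)) : ℂ) = ((q * (t + 1 : ℕ) : ℝ) : ℂ) * Complex.I := by
        push_cast
        ring
      rw [this, Complex.norm_exp_ofReal_mul_I]
    rw [h1, one_mul, norm_sub_rev]
    exact hT3 N n L l k U (xt l u t) 3 (by simp [D3]) c
  exact h0

/-- a root of unity different from `1` is not near `1` -/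
theorem root_far {ζ : ℂ} {N : ℕ} (hN : 1 ≤ N) (h1 : ζ ^ N = 1) (h2 : ζ ≠ 1) (hz : ‖ζ‖ = 1) :
    1 ≤ (N : ℝ) * ‖ζ - 1‖ := by
  have hs : ∑ i ∈ Finset.range N, ζ ^ i = 0 := by
    have := geom_sum_mul ζ N
    rw [h1, sub_self] at this
    rcases mul_eq_zero.1 this with h | h
    · exact h
    · exact absurd (sub_eq_zero.1 h) h2
  have hp : ∀ i : ℕ, ‖ζ ^ i - 1‖ ≤ i * ‖ζ - 1‖ := by
    intro i
    induction i with
    | zero => simp
    | succ i ih =>
      have : ζ ^ (i + 1) - 1 = (ζ ^ i - 1) * ζ + (ζ - 1) := by ring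
      rw [this]
      refine (norm_add_le _ _).trans ?_
      rw [norm_mul, hz, mul_one]
      push_cast
      linarith
  have h3 : (N : ℝ) = ‖∑ i ∈ Finset.range N, (ζ ^ i - 1)‖ := by
    rw [Finset.sum_sub_distrib, hs]
    simp
  have h4 : ‖∑ i ∈ Finset.range N, (ζ ^ i - 1)‖ ≤ N * (N * ‖ζ - 1‖) := by
    refine (norm_sum_le _ _).trans ?_
    refine (Finset.sum_le_card_nsmul _ _ ((N : ℝ) * ‖ζ - 1‖) fun i hi => ?_).trans ?_
    · rw [Finset.mem_range] at hi
      refine (hp i).trans (mul_le_mul_of_nonneg_right ?_ (norm_nonneg _))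
      exact_mod_cast hi.le
    · simp
  have hN' : (0 : ℝ) < N := by exact_mod_cast hN
  rw [← h3] at h4
  by_contra hcon
  push Not at hcon
  have := mul_lt_mul_of_pos_left hcon hN'
  linarith

/-- T5 -/
theorem t_T5 : S_T3 → S_T5 := by
  intro hT3 N n L l k _ _ _ _ hco U x c hc1 hcN
  have hN1 : 1 ≤ N := Nat.one_le_iff_ne_zero.2 (NeZero.ne N)
  obtain ⟨l', hl'⟩ := Nat.exists_eq_succ_of_ne_zero (NeZero.ne l)
  set u : ZMod n × ZMod L := (x.1, x.2.1) with hu
  set S : ℝ := ∑ t ∈ Finset.range l, fr k U (xt l u t) 3 with hS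
  have hfr : ∀ t, 0 ≤ fr k U (xt l u t) 3 := fun t => Finset.sum_nonneg fun _ _ => norm_nonneg _
  have hS0 : 0 ≤ S := Finset.sum_nonneg fun t _ => hfr t
  have hst : ∀ t, ‖ws k c U u t - W c U (xt l u t)‖ ≤ c * N * fr k U (xt l u t) 3 :=
    fun t => hT3 N n L l k U (xt l u t) 3 (by simp [D3]) c
  -- the values on the fibre are near the first one
  have hnear : ∀ t, t < l → ‖W c U (xt l u t) - W c U (xt l u 0)‖ ≤
      c * N * ∑ s ∈ Finset.range t, fr k U (xt l u s) 3 := by
    intro t
    induction t with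
    | zero => intro _; simp
    | succ t ih =>
      intro ht
      have h1 := ih (by omega)
      have h2 := hst t
      rw [ws_lt k c U u t ht] at h2
      rw [Finset.sum_range_succ, mul_add]
      have : W c U (xt l u (t + 1)) - W c U (xt l u 0) =
          (W c U (xt l u t) - W c U (xt l u 0)) + (W c U (xt l u (t + 1)) - W c U (xt l u t)) := by
        ring
      rw [this]
      exact (norm_add_le _ _).trans (add_le_add h1 h2)
  have hcN0 : (0 : ℝ) ≤ c * N := by positivity
  have hnear' : ∀ t, t < l → ‖W c U (xt l u t) - W c U (xt l u 0)‖ ≤ c * N * S := by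
    intro t ht
    refine (hnear t ht).trans (mul_le_mul_of_nonneg_left ?_ hcN0)
    refine Finset.sum_le_sum_of_subset_of_nonneg ?_ fun s _ _ => hfr s
    exact Finset.range_subset_range.2 ht.le
  -- around the circle
  have hcirc : ‖conj (om N k) ^ c * W c U (xt l u 0) - W c U (xt l u 0)‖ ≤ c * N * S := by
    have h1 := hst l'
    rw [ws_last k c U u l' hl'.symm] at h1
    have h2 := hnear l' (by omega)
    have h3 : S = ∑ s ∈ Finset.range l', fr k U (xt l u s) 3 + fr k U (xt l u l') 3 := by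
      have hr : Finset.range l = Finset.range (l' + 1) := by rw [hl']
      rw [hS, hr, Finset.sum_range_succ]
    have : conj (om N k) ^ c * W c U (xt l u 0) - W c U (xt l u 0) =
        (conj (om N k) ^ c * W c U (xt l u 0) - W c U (xt l u l')) +
          (W c U (xt l u l') - W c U (xt l u 0)) := by ring
    rw [this, h3, mul_add, add_comm (_ * _) (_ * fr _ _ _ _)]
    exact (norm_add_le _ _).trans (add_le_add h1 h2)
  -- the root of unity
  have hprim : IsPrimitiveRoot (om N k) N := by
    unfold om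
    exact Complex.isPrimitiveRoot_exp_of_coprime k N (NeZero.ne N) hco
  set ζ : ℂ := conj (om N k) ^ c with hζ
  have hz1 : ‖ζ‖ = 1 := by
    rw [hζ, norm_pow, Complex.norm_conj, om_norm, one_pow]
  have hzN : ζ ^ N = 1 := by
    rw [hζ, ← pow_mul, mul_comm c N, pow_mul, ← map_pow, hprim.pow_eq_one]
    simp
  have hzne : ζ ≠ 1 := by
    intro h
    have h1 : om N k ^ c = 1 := by
      have := om_pow_conj N k c
      rw [← hζ, h, mul_one] at this
      exact this
    have h2 := (hprim.pow_eq_one_iff_dvd c).1 h1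
    have := Nat.le_of_dvd (by omega) h2
    omega
  have hfar := root_far hN1 hzN hzne hz1
  have hw0 : ‖W c U (xt l u 0)‖ ≤ N * (c * N * S) := by
    have h1 : ‖ζ - 1‖ * ‖W c U (xt l u 0)‖ ≤ c * N * S := by
      rw [← norm_mul, sub_mul, one_mul]
      exact hcirc
    calc ‖W c U (xt l u 0)‖ = 1 * ‖W c U (xt l u 0)‖ := (one_mul _).symm
      _ ≤ (N * ‖ζ - 1‖) * ‖W c U (xt l u 0)‖ := mul_le_mul_of_nonneg_right hfar (norm_nonneg _)
      _ = N * (‖ζ - 1‖ * ‖W c U (xt l u 0)‖) := by ring
      _ ≤ N * (c * N * S) := mul_le_mul_of_nonneg_left h1 (Nat.cast_nonneg N)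
  -- the given point
  have hval : (x.2.2.2 - 1).val < l := ZMod.val_lt _
  have hx : xt l u (x.2.2.2 - 1).val + x.2.2.1.val • dir 2 = x := by
    rw [dir2_nsmul]
    unfold xt
    ext <;> simp [hu]
  have hWx : W c U x = W c U (xt l u (x.2.2.2 - 1).val) := by
    conv_lhs => rw [← hx]
    exact W_shift c U _ _
  have h5 : ‖W c U x‖ ≤ c * N * S + N * (c * N * S) := by
    rw [hWx]
    have : W c U (xt l u (x.2.2.2 - 1).val) =
        (W c U (xt l u (x.2.2.2 - 1).val) - W c U (xt l u 0)) + W c U (xt l u 0) := by ring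
    rw [this]
    exact (norm_add_le _ _).trans (add_le_add (hnear' _ hval) hw0)
  have hfin : (c : ℝ) * N * S + N * (c * N * S) ≤ N ^ 3 * S := by
    have hc' : (c : ℝ) + 1 ≤ N := by exact_mod_cast hcN
    have hN2 : (1 : ℝ) ≤ N := by exact_mod_cast hN1
    have : (c : ℝ) * N + N * (c * N) ≤ N ^ 3 := by
      have h6 : (c : ℝ) ≤ N - 1 := by linarith
      have h7 : (0 : ℝ) ≤ N + N ^ 2 := by positivity
      have h8 := mul_le_mul_of_nonneg_right h6 h7
      nlinarith
    have h9 := mul_le_mul_of_nonneg_right this hS0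
    nlinarith
  exact h5.trans hfin

end

end Run7.h593.MQ
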